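import Pool.Agent.CYL.D.G.Res
import Pool.Agent.CYG.D.K.Main
import Pool.Agent.CYG.D.Def
import Pool.Agent.CYG.P.Cl
import Pool.Agent.CYG.D.H.Rm
import Pool.Agent.CYG.D.B.Bd

/-! # CYL, part D4: growth of the masses of the families of crossing paths

Inputs: planarity `Pla L l` (part P2), primitivity of the matrix of `T(lam; 0)` on the class (P3), a vector `psi` with
`IsPsi (fun _ => 0) psi t`, and the equality of the masses of the runs and of the families (`rm_th`, D2). -/

open Filter Topology Finset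
open scoped ENNReal

namespace Pool.Agent.CYL.G

open Pool.Agent.BEX Pool.Agent.QL Pool.Agent.CYL.PF Pool.Agent.CYL.DK

variable {L l : ℕ}

/-! ### the through-states -/

theorem th_inr (s : Fin l → Fin L) (k : Fin l) : th s (Sum.inr k) = Sum.inl (s k) := rfl

theorem th_inl_of {s : Fin l → Fin L} (hs : Function.Injective s) (k : Fin l) :
    th s (Sum.inl (s k)) = Sum.inr k := by
  classical
  have h : ∃ k', s k' = s k := ⟨k, rfl⟩
  have : th s (Sum.inl (s k)) = Sum.inr h.choose := by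
    simp only [th]
    rw [dif_pos h]
  rw [this]
  congr 1
  exact hs h.choose_spec

theorem th_inl_not {s : Fin l → Fin L} {i : Fin L} (h : ∀ k, s k ≠ i) :
    th s (Sum.inl i) = Sum.inl i := by
  classical
  have h' : ¬ ∃ k, s k = i := fun ⟨k, hk⟩ => h k hk
  simp only [th]
  rw [dif_neg h']

theorem th_inv {s : Fin l → Fin L} (hs : Function.Injective s) (x : Lb L l) : th s (th s x) = x := by
  rcases x with i | k
  · by_cases h : ∃ k, s k = i
    · obtain ⟨k, rfl⟩ := h
      rw [th_inl_of hs, th_inr]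
    · have h' : ∀ k, s k ≠ i := fun k hk => h ⟨k, hk⟩
      rw [th_inl_not h', th_inl_not h']
  · rw [th_inr, th_inl_of hs]

/-- the through-state as a state -/
noncomputable def thS (s : Fin l → Fin L) (hs : Function.Injective s) : Sts L l := ⟨th s, th_inv hs⟩

theorem thS_chi (s : Fin l → Fin L) (hs : Function.Injective s) : Chi (thS s hs) :=
  fun j => ⟨s j, rfl⟩

theorem thS_jnd {s : Fin l → Fin L} {hs : Function.Injective s} {i k : Fin L}
    (h : Jnd (thS s hs) i k) : ∃ a b : Fin l, s a = i ∧ s b = k := by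
  obtain ⟨hne, h | ⟨j, j', -, h1, h2⟩⟩ := h
  · exfalso
    by_cases hi : ∃ a, s a = i
    · obtain ⟨a, rfl⟩ := hi
      have : th s (Sum.inl (s a)) = Sum.inl k := h
      rw [th_inl_of hs] at this
      cases this
    · have hi' : ∀ a, s a ≠ i := fun a ha => hi ⟨a, ha⟩
      have : th s (Sum.inl i) = Sum.inl k := h
      rw [th_inl_not hi'] at this
      exact hne (Sum.inl_injective this)
  · have g1 : s j = i := by
      have e : thS s hs (thS s hs (Sum.inl i)) = Sum.inl i := (thS s hs).inv _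
      rw [h1] at e
      exact Sum.inl_injective e
    have g2 : s j' = k := by
      have e : thS s hs (thS s hs (Sum.inl k)) = Sum.inl k := (thS s hs).inv _
      rw [h2] at e
      exact Sum.inl_injective e
    exact ⟨j, j', g1, g2⟩

/-- the monotone through-states are in the class -/
theorem thS_cls (s : Fin l → Fin L) (hm : StrictMono s) (hs : Function.Injective s) :
    Cls (thS s hs) := by
  have h0 : ∀ i k : Fin L, thS s hs (Sum.inl i) = Sum.inl k → i = k := by
    intro i k h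
    by_contra hne
    obtain ⟨a, b, ha, hb⟩ := thS_jnd (s := s) (hs := hs) ⟨hne, Or.inl h⟩
    subst ha
    have h' : th s (Sum.inl (s a)) = Sum.inl k := h
    rw [th_inl_of hs] at h'
    cases h'
  have h1 : ∀ (a : Fin L) (j : Fin l), thS s hs (Sum.inl a) = Sum.inr j → a = s j := by
    intro a j h
    have h2 : thS s hs (thS s hs (Sum.inl a)) = Sum.inl a := (thS s hs).inv _
    rw [h] at h2
    exact (Sum.inl_injective h2).symm
  refine ⟨thS_chi s hs, ?_, ?_, ?_⟩
  · intro i j k n hij hjk _ h _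
    have := h0 _ _ h
    omega
  · intro i k h a b _ _ hia hak
    have := h0 _ _ h
    omega
  · intro j₁ j₂ j₃ h12 h23 a b c ha hb hc
    rw [h1 _ _ ha, h1 _ _ hb, h1 _ _ hc]
    exact Or.inl ⟨hm h12, hm h23⟩

/-! ### stability -/

theorem kk_pow_ne : (kk lam) ^ L ≠ 0 := pow_ne_zero _ kk_lam_ne

theorem Tf_single (f t : Sts L l) :
    Tf lam (fun _ => 0) (Pi.single t 1) f = kk lam ^ L * ((KS L l f t : ℝ) : ℂ) := by
  rw [Tf_zero]
  congr 1
  simp only [Pi.single_apply, mul_ite, mul_one, mul_zero, Finset.sum_ite_eq', Finset.mem_univ, if_true]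

theorem sup_single {t : Sts L l} (ht : Chi t) : Sup (Pi.single t (1 : ℂ)) := by
  intro m hm
  rw [Pi.single_apply, if_neg]
  rintro rfl
  exact hm ht

theorem stab_of (P : Pla L l) : Stab (KS L l) Chi Cls where
  sub := fun _ h => h.1
  out := fun f t hf ht => by
    have h1 := P.sup lam (fun _ => 0) _ (sup_single ht) f hf
    rw [Tf_single] at h1
    exact_mod_cast (mul_eq_zero.1 h1).resolve_left kk_pow_ne
  st := fun f t hf ht hC => by
    have h1 := P.cls lam (fun _ => 0) _ (sup_single ht) (fun m hm => by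
      rw [Pi.single_apply, if_neg]
      rintro rfl
      exact hC hm) f hf
    rw [Tf_single] at h1
    exact_mod_cast (mul_eq_zero.1 h1).resolve_left kk_pow_ne

/-! ### primitivity -/

/-- `sin (3 π / 8)` -/
theorem s3_pos : 0 < Real.sin (3 * Real.pi / 8) :=
  Real.sin_pos_of_pos_of_lt_pi (by positivity) (by linarith [Real.pi_pos])

theorem Bc_eq (t f : Kc L l) :
    Bc lam (fun _ => 0) t f = Real.sin (3 * Real.pi / 8) ^ L * rst (KS L l) Cls t.1 f.1 := by
  rw [Bc_apply, Tf_single, kk_lam_real, rst_apply t.2 f.2]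
  norm_cast

theorem Bc_pow (n : ℕ) (t f : Kc L l) :
    (Bc lam (fun _ => 0) ^ n) t f =
      (Real.sin (3 * Real.pi / 8) ^ L) ^ n * (rst (KS L l) Cls ^ n) t.1 f.1 := by
  classical
  induction n generalizing t f with
  | zero =>
    rw [pow_zero, pow_zero, pow_zero, one_mul, Matrix.one_apply, Matrix.one_apply]
    simp only [Subtype.ext_iff]
  | succ n ih =>
    rw [pow_succ, Matrix.mul_apply, pow_succ (rst (KS L l) Cls), Matrix.mul_apply, Finset.mul_sum]
    have h1 : ∀ k : Kc L l, (Bc lam (fun _ => 0) ^ n) t k * Bc lam (fun _ => 0) k f =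
        (Real.sin (3 * Real.pi / 8) ^ L) ^ (n + 1) *
          ((rst (KS L l) Cls ^ n) t.1 k.1 * rst (KS L l) Cls k.1 f.1) := by
      intro k
      rw [ih, Bc_eq]
      ring
    simp_rw [h1]
    have h2 : ∀ k : Sts L l, k ∈ (Finset.univ : Finset (Sts L l)) →
        (Real.sin (3 * Real.pi / 8) ^ L) ^ (n + 1) *
          ((rst (KS L l) Cls ^ n) t.1 k * rst (KS L l) Cls k f.1) ≠ 0 → Cls k := by
      intro k _ hk
      by_contra hC
      apply hk
      rw [rst_zero_left hC, mul_zero, mul_zero]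
    rw [← Finset.sum_filter_of_ne h2, Finset.sum_subtype (p := Cls) (Finset.univ.filter Cls) (fun x => by simp)]

/-- the inputs of this part -/
structure GIn (L l : ℕ) (psi : Sts L l → ℝ) (t : ℂ → ℂ) : Prop where
  pla : Pla L l
  prim : (Bc lam (fun _ => 0) : Matrix (Kc L l) (Kc L l) ℝ).IsPrimitive
  psi : IsPsi (fun _ => 0) psi t

theorem GIn.exists_dat {psi : Sts L l → ℝ} {t : ℂ → ℂ} (G : GIn L l psi t) :
    ∃ (Λ : ℝ) (n : ℕ), Dat (KS L l) Chi Cls psi Λ n ∧
      t lam = (Real.sin (3 * Real.pi / 8) : ℂ) ^ L * Λ := by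
  have hs := s3_pos
  have hstab := stab_of G.pla
  obtain ⟨n, hn, hpos⟩ := G.prim.exists_pos_pow
  -- a state with positive mass
  obtain ⟨m0, hm0⟩ : ∃ m, psi m ≠ 0 := by
    by_contra h
    push Not at h
    have := G.psi.sum
    simp [h] at this
  have hC0 : Cls m0 := by
    by_contra h
    exact hm0 (G.psi.supp m0 h)
  have hk : kk lam ^ L ≠ 0 := kk_pow_ne
  have h1 := left_eig G.psi m0 hC0.1
  have hm0' : ((psi m0 : ℝ) : ℂ) ≠ 0 := by exact_mod_cast hm0
  obtain ⟨Λ, hΛ⟩ : ∃ Λ : ℝ, t lam / kk lam ^ L = (Λ : ℂ) := by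
    refine ⟨(∑ m, psi m * KS L l m m0) / psi m0, ?_⟩
    rw [eq_comm, Complex.ofReal_div, div_eq_iff hm0', ← h1]
  refine ⟨Λ, n, ⟨hstab, fun f t _ _ => KS_nonneg f t, G.psi.nonneg, G.psi.supp, ⟨m0, hm0⟩,
    fun m hm => ?_, (Nat.pos_iff_ne_zero.1 hn), fun f t hf ht => ?_⟩, ?_⟩
  · have h2 := left_eig G.psi m hm.1
    rw [hΛ] at h2
    exact_mod_cast h2
  · rw [(hstab.pow n f t hf ht.1).1 ht]
    have h3 := hpos ⟨t, ht⟩ ⟨f, hf⟩
    rw [Bc_pow] at h3
    exact (mul_pos_iff_of_pos_left (by positivity)).1 h3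
  · rw [div_eq_iff hk] at hΛ
    rw [hΛ, kk_lam_real]
    ring

/-! ### masses of the families -/

theorem ofReal_KS_th (hL : 2 ≤ L) {N : ℕ} (hN : 1 ≤ N) {c e : Fin l → Fin L}
    (hc : Function.Injective c) (he : Function.Injective e) :
    ENNReal.ofReal ((KS L l ^ N) (thS c hc) (thS e he)) = fm N c e := by
  rw [KS_pow]
  exact rm_th hL hN hc he

theorem fm_toReal (hL : 2 ≤ L) {N : ℕ} (hN : 1 ≤ N) {c e : Fin l → Fin L}
    (hc : Function.Injective c) (he : Function.Injective e) :
    (fm N c e).toReal = (KS L l ^ N) (thS c hc) (thS e he) := by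
  rw [← ofReal_KS_th hL hN hc he, ENNReal.toReal_ofReal (KS_pow_nonneg _ _ _)]

/-- **Growth of the masses of the families**, for fixed starts and ends in cyclic order. -/
theorem GIn.fm_bounds {psi : Sts L l → ℝ} {t : ℂ → ℂ} (G : GIn L l psi t)
    (hL : 2 ≤ L) : ∃ (Λ a b : ℝ) (N0 : ℕ), 0 < Λ ∧ 0 < a ∧ 0 < b ∧
      t lam = (Real.sin (3 * Real.pi / 8) : ℂ) ^ L * Λ ∧
      ∀ N : ℕ, N0 ≤ N → ∀ (c e : Fin l → Fin L) (hc : Function.Injective c) (he : Function.Injective e),
        Cls (thS c hc) → (Cls (thS e he) → a * Λ ^ N ≤ (fm N c e).toReal) ∧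
          (fm N c e).toReal ≤ b * Λ ^ N := by
  obtain ⟨Λ, n, D, ht⟩ := G.exists_dat
  obtain ⟨a, b, ha, hb, h1, h2⟩ := D.bounds
  refine ⟨Λ, a, b, max n 1, D.lam_pos, ha, hb, ht, fun N hN c e hc he hC => ?_⟩
  have hn : n ≤ N := le_trans (le_max_left _ _) hN
  have hN1 : 1 ≤ N := le_trans (le_max_right _ _) hN
  rw [fm_toReal hL hN1 hc he]
  refine ⟨fun hE => h2 N hn _ _ hC hE, ?_⟩
  by_cases hE : Cls (thS e he)
  · exact h1 N _ _ hC hE
  · rw [((stab_of G.pla).pow N (thS c hc) (thS e he) hC (thS_chi e he)).2 hE]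
    have := D.lam_pos
    positivity

/-! ### relabelling of the paths -/

theorem Fam_perm {N : ℕ} {c e : Fin l → Fin L} (σ : Equiv.Perm (Fin l)) {g : Fin l → List (CV L)}
    (h : Fam N c e g) : Fam N (c ∘ σ) (e ∘ σ) (g ∘ σ) :=
  ⟨fun k => h.1 (σ k), fun _ _ hk => h.2 _ _ fun h' => hk (σ.injective h')⟩

/-- the family with the paths in another order -/
def famPerm (N : ℕ) (c e : Fin l → Fin L) (σ : Equiv.Perm (Fin l)) :
    {g : Fin l → List (CV L) // Fam N c e g} ≃ {g : Fin l → List (CV L) // Fam N (c ∘ σ) (e ∘ σ) g} where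
  toFun g := ⟨g.1 ∘ σ, Fam_perm σ g.2⟩
  invFun g := ⟨g.1 ∘ σ.symm, by
    have h := Fam_perm σ.symm g.2
    rwa [Function.comp_assoc, Function.comp_assoc, Equiv.self_comp_symm, Function.comp_id,
      Function.comp_id] at h⟩
  left_inv g := Subtype.ext (by
    show (g.1 ∘ σ) ∘ σ.symm = g.1
    rw [Function.comp_assoc, Equiv.self_comp_symm, Function.comp_id])
  right_inv g := Subtype.ext (by
    show (g.1 ∘ σ.symm) ∘ σ = g.1
    rw [Function.comp_assoc, Equiv.symm_comp_self, Function.comp_id])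

/-- the mass does not depend on the order of the paths -/
theorem fm_perm (N : ℕ) (c e : Fin l → Fin L) (σ : Equiv.Perm (Fin l)) :
    fm N (c ∘ σ) (e ∘ σ) = fm N c e := by
  unfold fm
  rw [← Equiv.tsum_eq (famPerm N c e σ)]
  refine tsum_congr fun g => ?_
  congr 1
  exact Equiv.sum_comp σ fun k => (g.1 k).length

theorem sum_fm_perm (N : ℕ) (c : Fin l → Fin L) (σ : Equiv.Perm (Fin l)) :
    ∑ e : Fin l → Fin L, fm N (c ∘ σ) e = ∑ e : Fin l → Fin L, fm N c e := by
  rw [← Equiv.sum_comp (Equiv.arrowCongr σ.symm (Equiv.refl (Fin L)))]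
  refine Finset.sum_congr rfl fun e _ => ?_
  exact fm_perm N c e σ

/-- an injective tuple is a monotone one after a permutation -/
theorem exists_sort {c : Fin l → Fin L} (hc : Function.Injective c) :
    ∃ σ : Equiv.Perm (Fin l), StrictMono (c ∘ σ) :=
  ⟨Tuple.sort c, (Tuple.monotone_sort c).strictMono_of_injective (hc.comp (Tuple.sort c).injective)⟩

theorem exists_inj (h : l ≤ L) : ∃ e : Fin l → Fin L, Function.Injective e :=
  ⟨Fin.castLE h, Fin.castLE_injective h⟩

/-- growth for fixed starts (all ends summed) and for free starts -/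
theorem GIn.bounds {psi : Sts L l → ℝ} {t : ℂ → ℂ} (G : GIn L l psi t)
    (hL : 2 ≤ L) (hlL : l ≤ L) : ∃ (Λ a b : ℝ) (N0 : ℕ), 0 < Λ ∧ 0 < a ∧ 0 < b ∧
      t lam = (Real.sin (3 * Real.pi / 8) : ℂ) ^ L * Λ ∧
      ∀ N : ℕ, N0 ≤ N →
        (∀ c : Fin l → Fin L, Function.Injective c →
          a * Λ ^ N ≤ (∑ e : Fin l → Fin L, fm N c e).toReal ∧
          (∑ e : Fin l → Fin L, fm N c e).toReal ≤ b * Λ ^ N) ∧
        a * Λ ^ N ≤ (Zc L l N).toReal ∧ (Zc L l N).toReal ≤ b * Λ ^ N := by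
  obtain ⟨Λ, a, b, N0, hΛ, ha, hb, ht, h⟩ := G.fm_bounds hL
  have he0m : StrictMono (Fin.castLE hlL) := Fin.strictMono_castLE hlL
  have he0 := Fin.castLE_injective hlL
  set e0 : Fin l → Fin L := Fin.castLE hlL with he0d
  have hcard : (1 : ℝ) ≤ (Fintype.card (Fin l → Fin L) : ℝ) := by
    have : 0 < Fintype.card (Fin l → Fin L) := Fintype.card_pos_iff.2 ⟨e0⟩
    exact_mod_cast this
  set M : ℝ := (Fintype.card (Fin l → Fin L) : ℝ) with hM
  have hsum : ∀ (N : ℕ) (c : Fin l → Fin L), (∑ e : Fin l → Fin L, fm N c e).toReal =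
      ∑ e : Fin l → Fin L, (fm N c e).toReal := fun N c =>
    ENNReal.toReal_sum fun e _ => fm_fin N c e
  have key0 : ∀ N, max N0 1 ≤ N → ∀ c : Fin l → Fin L, StrictMono c →
      a * Λ ^ N ≤ (∑ e : Fin l → Fin L, fm N c e).toReal ∧
      (∑ e : Fin l → Fin L, fm N c e).toReal ≤ M * b * Λ ^ N := by
    intro N hN c hcm
    have hc := hcm.injective
    have hN0 : N0 ≤ N := le_trans (le_max_left _ _) hN
    have hN1 : 1 ≤ N := le_trans (le_max_right _ _) hN
    rw [hsum]
    constructor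
    · refine ((h N hN0 c e0 hc he0 (thS_cls c hcm hc)).1 (thS_cls e0 he0m he0)).trans ?_
      exact Finset.single_le_sum (f := fun e => (fm N c e).toReal) (fun e _ => ENNReal.toReal_nonneg)
        (Finset.mem_univ e0)
    · calc ∑ e : Fin l → Fin L, (fm N c e).toReal ≤ ∑ _e : Fin l → Fin L, b * Λ ^ N := by
            refine Finset.sum_le_sum fun e _ => ?_
            by_cases he : Function.Injective e
            · exact (h N hN0 c e hc he (thS_cls c hcm hc)).2
            · rw [fm_zero_right he]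
              simp only [ENNReal.toReal_zero]
              positivity
        _ = M * b * Λ ^ N := by
            rw [Finset.sum_const, nsmul_eq_mul, Finset.card_univ]
            ring
  have key : ∀ N, max N0 1 ≤ N → ∀ c : Fin l → Fin L, Function.Injective c →
      a * Λ ^ N ≤ (∑ e : Fin l → Fin L, fm N c e).toReal ∧
      (∑ e : Fin l → Fin L, fm N c e).toReal ≤ M * b * Λ ^ N := by
    intro N hN c hc
    obtain ⟨σ, hσ⟩ := exists_sort hc
    rw [← sum_fm_perm N c σ]
    exact key0 N hN _ hσ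
  refine ⟨Λ, a, M * (M * b), max N0 1, hΛ, ha, by positivity, ht, fun N hN => ?_⟩
  have hp : 0 < Λ ^ N := pow_pos hΛ N
  have hMb : M * b * Λ ^ N ≤ M * (M * b) * Λ ^ N := by
    refine mul_le_mul_of_nonneg_right ?_ hp.le
    have : 0 < M * b := by positivity
    nlinarith
  refine ⟨fun c hc => ⟨(key N hN c hc).1, (key N hN c hc).2.trans hMb⟩, ?_⟩
  have e1 : (Zc L l N).toReal = ∑ c : Fin l → Fin L, (∑ e : Fin l → Fin L, fm N c e).toReal := by
    rw [Zc_eq, ENNReal.toReal_sum]
    intro c _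
    exact sum_fm_fin N c
  rw [e1]
  constructor
  · refine (key N hN e0 he0).1.trans ?_
    exact Finset.single_le_sum (f := fun c : Fin l → Fin L => (∑ e : Fin l → Fin L, fm N c e).toReal)
      (fun e _ => ENNReal.toReal_nonneg) (Finset.mem_univ e0)
  · calc ∑ c : Fin l → Fin L, (∑ e : Fin l → Fin L, fm N c e).toReal
        ≤ ∑ _c : Fin l → Fin L, M * b * Λ ^ N := by
          refine Finset.sum_le_sum fun c _ => ?_
          by_cases hc : Function.Injective c
          · exact (key N hN c hc).2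
          · have : ∑ e : Fin l → Fin L, fm N c e = 0 :=
              Finset.sum_eq_zero fun e _ => fm_zero_left hc
            rw [this]
            simp only [ENNReal.toReal_zero]
            positivity
      _ = M * (M * b) * Λ ^ N := by
          rw [Finset.sum_const, nsmul_eq_mul, Finset.card_univ]
          ring

/-- **D4**, in the form of the skeleton: one growth rate for the free starts, and for all fixed starts;
every number `l` of paths. -/
theorem GIn.final {psi : Sts L l → ℝ} {t : ℂ → ℂ} (G : GIn L l psi t) (_hl : 1 ≤ l)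
    (hL : 2 ≤ L) (hlL : l ≤ L) : ∃ Λ : ℝ,
      t lam = (Real.sin (3 * Real.pi / 8) : ℂ) ^ L * Λ ∧ 0 < Λ ∧
      Tendsto (fun N : ℕ => Real.log (Zc L l N).toReal / N) atTop (𝓝 (Real.log Λ)) ∧
      (∀ c : Fin l → Fin L, Function.Injective c →
        Tendsto (fun N : ℕ => Real.log (∑ e : Fin l → Fin L, fm N c e).toReal / N) atTop
          (𝓝 (Real.log Λ))) ∧
      2 * (l : ℝ) * Real.log (1 / (2 * Real.cos (Real.pi / 8))) ≤ Real.log Λ ∧ Real.log Λ ≤ 0 := by
  obtain ⟨Λ, a, b, N0, hΛ, ha, hb, ht, h⟩ := G.bounds hL hlL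
  have h1 : Tendsto (fun N : ℕ => Real.log (Zc L l N).toReal / N) atTop (𝓝 (Real.log Λ)) :=
    tendsto_log_div hΛ ha hb (n := N0) (fun N hN => (h N hN).2.1) fun N hN => (h N hN).2.2
  refine ⟨Λ, ht, hΛ, h1, fun c hc => ?_, ?_, rate_upper' h1⟩
  · exact tendsto_log_div hΛ ha hb (n := N0) (fun N hN => ((h N hN).1 c hc).1)
      fun N hN => ((h N hN).1 c hc).2
  · have h2 := rate_lower' hlL h1
    have h3 : Pool.Agent.Hhelper14.SAW.xc = 1 / (2 * Real.cos (Real.pi / 8)) := by
      have h4 := Pool.Agent.Hhelper14.SAW.xc_mu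
      unfold Pool.Agent.Hhelper14.SAW.mu at h4
      rw [eq_div_iff]
      · exact h4
      · intro h5
        rw [h5, mul_zero] at h4
        exact zero_ne_one h4
    rw [h3] at h2
    exact h2

end Pool.Agent.CYL.G
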